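import Pool.Agent.D0H44.KC.Stm

/-! # Module AQ of project KC: averages over the moduli -/

set_option autoImplicit false

open Finset

namespace Pool.Agent.D0H35.KC

open Pool.Agent.D0H44.KC

theorem card_mult (Q f : ℕ) (hf : 1 ≤ f) (hfQ : f ≤ 2 * Q) :
    (((Ioc Q (2 * Q)).filter (fun q => f ∣ q)).card : ℝ) ≤ 3 * Q / f := by
  have h1 := Nat.Ioc_filter_dvd_card_eq_div (2 * Q) f
  have h2 := Nat.Ioc_filter_dvd_card_eq_div Q f
  have h3 : ((Ioc 0 Q).filter (fun q => f ∣ q)).card +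
      ((Ioc Q (2 * Q)).filter (fun q => f ∣ q)).card =
      ((Ioc 0 (2 * Q)).filter (fun q => f ∣ q)).card := by
    rw [← card_union_of_disjoint]
    · congr 1
      ext q
      simp only [mem_union, mem_filter, mem_Ioc]
      constructor
      · rintro (⟨⟨h, h'⟩, h''⟩ | ⟨⟨h, h'⟩, h''⟩)
        · exact ⟨⟨h, by omega⟩, h''⟩
        · exact ⟨⟨by omega, h'⟩, h''⟩
      · rintro ⟨⟨h, h'⟩, h''⟩
        by_cases hq : q ≤ Q
        · exact Or.inl ⟨⟨h, hq⟩, h''⟩
        · exact Or.inr ⟨⟨by omega, h'⟩, h''⟩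
    · rw [disjoint_left]
      intro q hq hq'
      simp only [mem_filter, mem_Ioc] at hq hq'
      omega
  rw [h1, h2] at h3
  have hf0 : (0 : ℝ) < f := by exact_mod_cast hf
  have h4 : ((2 * Q / f : ℕ) : ℝ) ≤ 2 * Q / f := by
    have := Nat.cast_div_le (α := ℝ) (m := 2 * Q) (n := f)
    push_cast at this
    exact this
  have h5 : (Q : ℝ) / f < (Q / f : ℕ) + 1 := by
    rw [div_lt_iff₀ hf0]
    have := Nat.lt_div_mul_add hf (a := Q)
    have h6 : (Q : ℝ) < (Q / f : ℕ) * f + f := by exact_mod_cast this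
    nlinarith
  have h6 : ((Q / f : ℕ) : ℝ) + ((Ioc Q (2 * Q)).filter (fun q => f ∣ q)).card =
      (2 * Q / f : ℕ) := by exact_mod_cast h3
  have h7 : (1 : ℝ) ≤ 2 * Q / f := by
    rw [le_div_iff₀ hf0, one_mul]
    exact_mod_cast hfQ
  have h8 : (3 : ℝ) * Q / f = Q / f + 2 * Q / f := by ring
  have h9 : (2 : ℝ) * Q / f = Q / f + Q / f := by ring
  rw [h8]
  linarith

/-- Abel summation -/
theorem abel (X : ℕ → ℝ) (F N : ℕ) (hF : 1 ≤ F) (hFN : F ≤ N) (hX : ∀ f, 0 ≤ X f) :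
    ∑ f ∈ Ioc F N, X f / f ≤ (∑ f ∈ Icc 2 N, X f) / N +
      ∑ f ∈ Ico F N, (∑ g ∈ Icc 2 f, X g) / (f * (f + 1)) := by
  induction N, hFN using Nat.le_induction with
  | base =>
    rw [Ioc_self, Ico_self, sum_empty, sum_empty, add_zero]
    exact div_nonneg (sum_nonneg fun f _ => hX f) (by positivity)
  | succ N hN ih =>
    have hN0 : (0 : ℝ) < N := by exact_mod_cast (by omega : 0 < N)
    rw [sum_Ioc_succ_top hN, Nat.Ico_succ_right_eq_insert_Ico hN, sum_insert (by simp)]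
    have h2 : ∑ f ∈ Icc 2 (N + 1), X f = ∑ f ∈ Icc 2 N, X f + X (N + 1) := by
      rw [sum_Icc_succ_top (by omega)]
    rw [h2]
    push_cast
    set S := ∑ f ∈ Icc 2 N, X f
    have h3 : (S + X (N + 1)) / ((N : ℝ) + 1) + S / ((N : ℝ) * (N + 1)) =
        X (N + 1) / ((N : ℝ) + 1) + S / N := by
      field_simp
      ring
    linarith

theorem sum_pot (S : ℕ → ℝ) (F N : ℕ) (A B C : ℝ) (hF : 1 ≤ F) (hFN : F ≤ N)
    (hB : 0 ≤ B) (hC : 0 ≤ C)
    (hS : ∀ t : ℕ, F ≤ t → t ≤ N → S t ≤ A + B * t + C * (t : ℝ) ^ 2) :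
    ∑ f ∈ Ico F N, S f / (f * (f + 1)) ≤ A * (1 / F - 1 / N) +
      B * (Real.log N - Real.log F) + C * (N - F) := by
  induction N, hFN using Nat.le_induction with
  | base => simp
  | succ N hN ih =>
    have ih' := ih fun t h1 h2 => hS t h1 (by omega)
    rw [Nat.Ico_succ_right_eq_insert_Ico hN, sum_insert (by simp)]
    have hN0 : (0 : ℝ) < N := by exact_mod_cast (by omega : 0 < N)
    have h1 : S N / ((N : ℝ) * (N + 1)) ≤ A * (1 / N - 1 / (N + 1)) + B * (1 / (N + 1)) + C := by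
      have h2 := hS N hN (by omega)
      have h3 : S N / ((N : ℝ) * (N + 1)) ≤
          (A + B * N + C * (N : ℝ) ^ 2) / ((N : ℝ) * (N + 1)) := by
        gcongr
      refine h3.trans ?_
      have h4 : (A + B * N + C * (N : ℝ) ^ 2) / ((N : ℝ) * (N + 1)) =
          A * (1 / N - 1 / (N + 1)) + B * (1 / (N + 1)) + C * (N / (N + 1)) := by
        field_simp
        ring
      rw [h4]
      have h5 : (N : ℝ) / (N + 1) ≤ 1 := by
        rw [div_le_one (by positivity)]
        linarith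
      have h6 : C * (N / (N + 1)) ≤ C := by
        calc C * (N / (N + 1)) ≤ C * 1 := by gcongr
          _ = C := mul_one C
      linarith
    have h2 : 1 / ((N : ℝ) + 1) ≤ Real.log (N + 1) - Real.log N := by
      rw [← Real.log_div (by positivity) (by positivity)]
      have h3 := Real.one_sub_inv_le_log_of_pos (x := ((N : ℝ) + 1) / N) (by positivity)
      have h4 : 1 - (((N : ℝ) + 1) / N)⁻¹ = 1 / (N + 1) := by
        field_simp
        ring
      rw [h4] at h3
      exact h3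
    have h3 : B * (1 / ((N : ℝ) + 1)) ≤ B * (Real.log (N + 1) - Real.log N) := by gcongr
    push_cast
    calc S N / ((N : ℝ) * (N + 1)) + ∑ f ∈ Ico F N, S f / ((f : ℝ) * (f + 1))
        ≤ (A * (1 / N - 1 / (N + 1)) + B * (Real.log (N + 1) - Real.log N) + C) +
          (A * (1 / F - 1 / N) + B * (Real.log N - Real.log F) + C * (N - F)) := by linarith
      _ = _ := by ring

/-- **AQ.** -/
theorem t_AQ : S_AQ := by
  intro Q F X A B C D hQ hF hX hA hB hC hD hS
  have hQ0 : (1 : ℝ) ≤ Q := by exact_mod_cast hQ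
  have hF0 : (1 : ℝ) ≤ F := by exact_mod_cast hF
  have hD0 : 0 ≤ D := (sum_nonneg fun f _ => hX f).trans hD
  have hlog : 0 ≤ Real.log ((2 * Q : ℕ) : ℝ) := Real.log_natCast_nonneg _
  -- the sum over `q`
  have h1 : ∑ q ∈ Ioc Q (2 * Q), ∑ f ∈ q.divisors.filter (fun f => 2 ≤ f), X f =
      ∑ f ∈ Icc 2 (2 * Q), X f * ((Ioc Q (2 * Q)).filter (fun q => f ∣ q)).card := by
    have h2 : ∀ q ∈ Ioc Q (2 * Q), ∑ f ∈ q.divisors.filter (fun f => 2 ≤ f), X f =
        ∑ f ∈ Icc 2 (2 * Q), if f ∣ q then X f else 0 := by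
      intro q hq
      rw [mem_Ioc] at hq
      rw [← sum_filter]
      refine sum_congr ?_ fun _ _ => rfl
      ext f
      simp only [mem_filter, Nat.mem_divisors, mem_Icc]
      constructor
      · rintro ⟨⟨h3, h4⟩, h5⟩
        exact ⟨⟨h5, (Nat.le_of_dvd (by omega) h3).trans hq.2⟩, h3⟩
      · rintro ⟨⟨h3, h4⟩, h5⟩
        exact ⟨⟨h5, by omega⟩, h3⟩
    rw [sum_congr rfl h2, sum_comm]
    refine sum_congr rfl fun f _ => ?_
    rw [← sum_filter, sum_const, nsmul_eq_mul, mul_comm]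
  rw [h1]
  have h2 : ∑ f ∈ Icc 2 (2 * Q), X f * ((Ioc Q (2 * Q)).filter (fun q => f ∣ q)).card ≤
      3 * Q * ∑ f ∈ Icc 2 (2 * Q), X f / f := by
    rw [mul_sum]
    refine sum_le_sum fun f hf => ?_
    rw [mem_Icc] at hf
    calc X f * ((Ioc Q (2 * Q)).filter (fun q => f ∣ q)).card ≤ X f * (3 * Q / f) := by
          gcongr
          · exact hX f
          · exact card_mult Q f (by omega) hf.2
      _ = _ := by ring
  refine h2.trans ?_
  -- the sum over `f ≤ F`
  have h3 : ∑ f ∈ Icc 2 F, X f / f ≤ D := by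
    refine (sum_le_sum fun f hf => ?_).trans hD
    rw [mem_Icc] at hf
    exact div_le_self (hX f) (by exact_mod_cast (by omega : 1 ≤ f))
  have h4 : ∑ f ∈ Icc 2 (2 * Q), X f / f ≤
      D + (A / F + B * (1 + Real.log ((2 * Q : ℕ) : ℝ)) + 4 * C * Q) := by
    by_cases hFQ : F ≤ 2 * Q
    · have h5 : ∑ f ∈ Icc 2 (2 * Q), X f / f ≤
          ∑ f ∈ Icc 2 F, X f / f + ∑ f ∈ Ioc F (2 * Q), X f / f := by
        rw [← sum_union]
        · refine sum_le_sum_of_subset_of_nonneg ?_ fun f _ _ => div_nonneg (hX f) (by positivity)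
          intro f hf
          simp only [mem_union, mem_Icc, mem_Ioc] at hf ⊢
          omega
        · rw [disjoint_left]
          intro f hf hf'
          simp only [mem_Icc, mem_Ioc] at hf hf'
          omega
      have h6 := abel X F (2 * Q) hF hFQ hX
      have h7 := sum_pot (fun t => ∑ g ∈ Icc 2 t, X g) F (2 * Q) A B C hF hFQ hB hC hS
      have h8 := hS (2 * Q) hFQ le_rfl
      have hN0 : (0 : ℝ) < ((2 * Q : ℕ) : ℝ) := by
        push_cast
        linarith
      have h9 : (∑ f ∈ Icc 2 (2 * Q), X f) / ((2 * Q : ℕ) : ℝ) ≤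
          A / ((2 * Q : ℕ) : ℝ) + B + C * ((2 * Q : ℕ) : ℝ) := by
        rw [div_le_iff₀ hN0]
        calc ∑ f ∈ Icc 2 (2 * Q), X f ≤ _ := h8
          _ = _ := by field_simp
      have h10 : 0 ≤ Real.log F := Real.log_natCast_nonneg _
      have h11 : 0 ≤ B * Real.log F := mul_nonneg hB h10
      have h12 : 0 ≤ C * (F : ℝ) := by positivity
      have h13 : A * (1 / (F : ℝ) - 1 / ((2 * Q : ℕ) : ℝ)) =
          A / F - A / ((2 * Q : ℕ) : ℝ) := by ring
      rw [h13] at h7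
      have h14 : ((2 * Q : ℕ) : ℝ) = 2 * Q := by push_cast; ring
      have h15 : C * ((2 * Q : ℕ) : ℝ) = 2 * (C * Q) := by rw [h14]; ring
      have h16 : B * (Real.log ((2 * Q : ℕ) : ℝ) - Real.log F) =
          B * Real.log ((2 * Q : ℕ) : ℝ) - B * Real.log F := by ring
      have h17 : C * (((2 * Q : ℕ) : ℝ) - F) = 2 * (C * Q) - C * F := by rw [h14]; ring
      rw [h16, h17] at h7
      rw [h15] at h9
      linarith
    · have h5 : ∑ f ∈ Icc 2 (2 * Q), X f / f ≤ ∑ f ∈ Icc 2 F, X f / f :=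
        sum_le_sum_of_subset_of_nonneg (Icc_subset_Icc_right (by omega))
          fun f _ _ => div_nonneg (hX f) (by positivity)
      have h6 : 0 ≤ A / F + B * (1 + Real.log ((2 * Q : ℕ) : ℝ)) + 4 * C * Q := by positivity
      linarith
  set L := Real.log ((2 * Q : ℕ) : ℝ)
  have h5 : D + (A / F + B * (1 + L) + 4 * C * Q) ≤ 4 * ((1 + L) * (D + A / F + B + C * Q)) := by
    have h6 : 0 ≤ A / F := by positivity
    have h7 : 0 ≤ C * Q := by positivity
    have h8 : 0 ≤ L * D := by positivity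
    have h9 : 0 ≤ L * (A / F) := by positivity
    have h10 : 0 ≤ L * B := by positivity
    have h11 : 0 ≤ L * (C * Q) := by positivity
    nlinarith
  have h6 : 0 ≤ (1 + L) * (D + A / F + B + C * Q) := by positivity
  calc 3 * (Q : ℝ) * ∑ f ∈ Icc 2 (2 * Q), X f / f
      ≤ 3 * (Q : ℝ) * (4 * ((1 + L) * (D + A / F + B + C * Q))) := by
        gcongr
        exact h4.trans h5
    _ = 12 * Q * ((1 + L) * (D + A / F + B + C * Q)) := by ring
    _ ≤ 20 * Q * ((1 + L) * (D + A / F + B + C * Q)) := by gcongr; norm_num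
    _ = _ := by ring

end Pool.Agent.D0H35.KC
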