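import Pool.Agent.D0H44.KC.Stm
import Pool.Agent.D0H44.EL.Count
import Pool.Agent.H398R2.BA1

/-! # Module PP of project KC: the prime number theorem with the weight -/

set_option autoImplicit false

open Finset

namespace Pool.Agent.D0H35.KC

open Pool.Agent.D0H44.KC Pool.Agent.D0H44.FR
open Pool.Agent.H398R2.BV (omega_le_log sum_not_coprime)

theorem psi_sub (a b : ℝ) (hab : a ≤ b) : Chebyshev.psi b - Chebyshev.psi a =
    ∑ n ∈ Ioc ⌊a⌋₊ ⌊b⌋₊, ArithmeticFunction.vonMangoldt n := by
  have h1 : ⌊a⌋₊ ≤ ⌊b⌋₊ := Nat.floor_mono hab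
  unfold Chebyshev.psi
  rw [sub_eq_iff_eq_add', sum_Ioc_consecutive _ (Nat.zero_le _) h1]

/-- **PP.** -/
theorem t_PP : S_W → S_PP := by
  rintro ⟨-, -, -, hw01, -, -, -, hw14⟩
  obtain ⟨C, hC, hpsi⟩ := Pool.Agent.D0H44.EL.psi_bds (1 / 1000) (by norm_num)
  have hlog := (Real.isLittleO_pow_log_id_atTop (n := 2)).bound (by norm_num : (0 : ℝ) < 1 / 100)
  rw [Filter.eventually_atTop] at hlog
  obtain ⟨x₁, hx₁⟩ := hlog
  refine ⟨max x₁ (max (10 * C) 4), fun x q M hx hq hqx hM => ?_⟩
  have hxx₁ : x₁ ≤ x := (le_max_left _ _).trans hx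
  have hxC : 10 * C ≤ x := ((le_max_left _ _).trans (le_max_right _ _)).trans hx
  have hx4 : 4 ≤ x := ((le_max_right _ _).trans (le_max_right _ _)).trans hx
  have hx0 : 0 < x := by linarith
  have hl := hx₁ x hxx₁
  simp only [id, Real.norm_eq_abs, abs_of_pos hx0, abs_pow, sq_abs] at hl
  set a := ⌊5 / 4 * x⌋₊ with ha
  set b := ⌊9 / 5 * x⌋₊ with hb
  -- the main term
  have h1 : (0.5469 : ℝ) * x - 2 * C ≤ ∑ n ∈ Ioc a b, ArithmeticFunction.vonMangoldt n := by
    rw [ha, hb, ← psi_sub _ _ (by linarith)]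
    have h2 := (hpsi (9 / 5 * x) (by positivity)).1
    have h3 := (hpsi (5 / 4 * x) (by positivity)).2
    norm_num at h2 h3 ⊢
    linarith
  -- not coprime to `q`
  have h2 : ∑ n ∈ (Ioc a b).filter (fun n => ¬ n.Coprime q), ArithmeticFunction.vonMangoldt n ≤
      x / 25 := by
    have h3 : ∑ n ∈ (Ioc a b).filter (fun n => ¬ n.Coprime q), ArithmeticFunction.vonMangoldt n ≤
        ∑ n ∈ (Icc 1 b).filter (fun n => ¬ n.Coprime q), ArithmeticFunction.vonMangoldt n := by
      refine sum_le_sum_of_subset_of_nonneg ?_ fun _ _ _ =>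
        ArithmeticFunction.vonMangoldt_nonneg
      intro n hn
      simp only [mem_filter, mem_Ioc, mem_Icc] at hn ⊢
      exact ⟨⟨by omega, hn.1.2⟩, hn.2⟩
    refine h3.trans ((sum_not_coprime b q hq).trans ?_)
    have h4 := omega_le_log q hq
    have hlx : 0 ≤ Real.log x := Real.log_nonneg (by linarith)
    have h5 : Real.log q ≤ Real.log x := Real.log_le_log (by exact_mod_cast hq) hqx
    have h6 : Real.log b ≤ 2 * Real.log x := by
      have hb1 : (b : ℝ) ≤ 9 / 5 * x := Nat.floor_le (by positivity)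
      have hb0 : (0 : ℝ) < b := by
        have : 0 < b := Nat.floor_pos.mpr (by linarith)
        exact_mod_cast this
      calc Real.log b ≤ Real.log (x ^ 2) := Real.log_le_log hb0 (by nlinarith)
        _ = 2 * Real.log x := by rw [Real.log_pow]; push_cast; ring
    have h7 : 0 ≤ Real.log b := Real.log_natCast_nonneg b
    calc (q.primeFactors.card : ℝ) * Real.log b ≤ (2 * Real.log x) * (2 * Real.log x) := by
          apply mul_le_mul (h4.trans (by linarith)) h6 h7 (by positivity)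
      _ = 4 * Real.log x ^ 2 := by ring
      _ ≤ x / 25 := by linarith
  have h3 := sum_filter_add_sum_filter_not (Ioc a b) (fun n => n.Coprime q)
    (fun n => ArithmeticFunction.vonMangoldt n)
  -- the weight
  have h4 : 1 / 4 * ∑ n ∈ (Ioc a b).filter (fun n => n.Coprime q),
      ArithmeticFunction.vonMangoldt n ≤ PQ x q M := by
    unfold PQ
    rw [mul_sum]
    have h5 : (Ioc a b).filter (fun n => n.Coprime q) ⊆ (Icc 1 M).filter (fun n => n.Coprime q) := by
      intro n hn
      simp only [mem_filter, mem_Ioc, mem_Icc] at hn ⊢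
      refine ⟨⟨by omega, ?_⟩, hn.2⟩
      have h6 : (n : ℝ) ≤ 9 / 5 * x :=
        (Nat.cast_le.mpr hn.1.2).trans (Nat.floor_le (by positivity))
      have h7 : (n : ℝ) ≤ M := by linarith
      exact_mod_cast h7
    refine le_trans (sum_le_sum fun n hn => ?_) (sum_le_sum_of_subset_of_nonneg h5 fun n _ _ =>
      mul_nonneg ArithmeticFunction.vonMangoldt_nonneg (hw01 _).1)
    simp only [mem_filter, mem_Ioc] at hn
    have h6 : (n : ℝ) ≤ 9 / 5 * x :=
      (Nat.cast_le.mpr hn.1.2).trans (Nat.floor_le (by positivity))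
    have h7 : 5 / 4 * x ≤ n := by
      have := Nat.lt_of_floor_lt hn.1.1
      exact this.le
    rw [mul_comm]
    refine mul_le_mul_of_nonneg_left (hw14 _ ?_ ?_) ArithmeticFunction.vonMangoldt_nonneg
    · rw [le_div_iff₀ hx0]
      exact h7
    · rw [div_le_iff₀ hx0]
      exact h6
  refine le_trans ?_ h4
  have h5 : ∑ n ∈ (Ioc a b).filter (fun n => n.Coprime q), ArithmeticFunction.vonMangoldt n ≥
      0.5469 * x - 2 * C - x / 25 := by linarith
  norm_num at h5 ⊢
  linarith

end Pool.Agent.D0H35.KC
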